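import Pool.Agent.Lib.MP_e763ea_al.Table

set_option autoImplicit false

/-!
# The example: the Klein four-group acting on `4 + 1 + 1` and on `2 + 2 + 2` points
-/

namespace Pool.Agent.MPe763ea

open scoped Pointwise

/-- the action on `4 + 1 + 1` points -/
def al : Fin 3 → Fin 6 → Fin 6 :=
  ![![0, 1, 2, 3, 4, 5], ![1, 0, 3, 2, 4, 5], ![2, 3, 0, 1, 4, 5]]

/-- the action on `2 + 2 + 2` points -/
def be : Fin 3 → Fin 6 → Fin 6 :=
  ![![0, 1, 2, 3, 4, 5], ![0, 1, 3, 2, 5, 4], ![1, 0, 2, 3, 5, 4]]

theorem al_inv : ∀ k x, al k (al k x) = x := by decide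
theorem be_inv : ∀ k x, be k (be k x) = x := by decide

/-- table of the equivariant bijection -/
def tab : List ℕ := [0, 5, 9, 1, 6, 4, 16, 17, 10, 32, 8, 33, 2, 34, 18, 3, 12, 20, 40, 13, 36, 7,
  19, 21, 24, 35, 11, 41, 14, 38, 26, 15, 48, 22, 42, 49, 37, 52, 28, 23, 25, 44, 56, 43, 50, 39,
  27, 51, 60, 29, 45, 61, 46, 55, 31, 53, 30, 47, 59, 57, 62, 54, 58, 63]

/-- table of the inverse bijection -/
def tabInv : List ℕ := [0, 3, 12, 15, 5, 1, 4, 21, 10, 2, 8, 26, 16, 19, 28, 31, 6, 7, 14, 22, 17,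
  23, 33, 39, 24, 40, 30, 46, 38, 49, 56, 54, 9, 11, 13, 25, 20, 36, 29, 45, 18, 27, 34, 43, 41,
  50, 52, 57, 32, 35, 44, 47, 37, 55, 61, 53, 42, 59, 62, 58, 48, 51, 60, 63]

/-- binary code of a subset -/
def code (f : Fin 6 → Bool) : ℕ :=
  (f 0).toNat + 2 * (f 1).toNat + 4 * (f 2).toNat + 8 * (f 3).toNat + 16 * (f 4).toNat +
    32 * (f 5).toNat

/-- decoding -/
def dec (n : ℕ) : Fin 6 → Bool := fun x => Nat.testBit n x

/-- the bijection on characteristic functions -/
def fwd (f : Fin 6 → Bool) : Fin 6 → Bool := dec (tab.getD (code f) 0)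
/-- its inverse -/
def bwd (f : Fin 6 → Bool) : Fin 6 → Bool := dec (tabInv.getD (code f) 0)

theorem all_fun (P : (Fin 6 → Bool) → Prop)
    (h : ∀ b0 b1 b2 b3 b4 b5 : Bool, P ![b0, b1, b2, b3, b4, b5]) (f : Fin 6 → Bool) : P f := by
  have h1 : f = ![f 0, f 1, f 2, f 3, f 4, f 5] := by
    ext i
    fin_cases i <;> rfl
  rw [h1]
  exact h _ _ _ _ _ _

theorem bwd_fwd (f : Fin 6 → Bool) : bwd (fwd f) = f := by
  refine all_fun (fun f => bwd (fwd f) = f) ?_ f
  decide

theorem fwd_bwd (f : Fin 6 → Bool) : fwd (bwd f) = f := by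
  refine all_fun (fun f => fwd (bwd f) = f) ?_ f
  decide

theorem fwd_equi (k : Fin 3) (f : Fin 6 → Bool) : fwd (fun x => f (al k x)) =
    fun x => fwd f (be k x) := by
  refine all_fun (fun f => fwd (fun x => f (al k x)) = fun x => fwd f (be k x)) ?_ f
  revert k
  decide

/-- subsets and characteristic functions -/
noncomputable def toB : Set (Fin 6) ≃ (Fin 6 → Bool) where
  toFun A x := open Classical in decide (x ∈ A)
  invFun f := {x | f x = true}
  left_inv A := by ext x; simp
  right_inv f := by ext x; simp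

theorem toB_preimage (g : Fin 6 → Fin 6) (A : Set (Fin 6)) :
    toB (g ⁻¹' A) = fun x => toB A (g x) := rfl

theorem toB_symm_comp (g : Fin 6 → Fin 6) (f : Fin 6 → Bool) :
    toB.symm (fun x => f (g x)) = g ⁻¹' (toB.symm f) := rfl

/-- the bijection on characteristic functions as a permutation -/
def fwdE : Equiv.Perm (Fin 6 → Bool) := ⟨fwd, bwd, bwd_fwd, fwd_bwd⟩

/-- the equivariant bijection of power sets -/
noncomputable def phi : Equiv.Perm (Set (Fin 6)) := (toB.trans fwdE).trans toB.symm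

theorem phi_equi (k : Fin 3) (A : Set (Fin 6)) : phi (al k ⁻¹' A) = be k ⁻¹' (phi A) := by
  show toB.symm (fwd (toB (al k ⁻¹' A))) = be k ⁻¹' (toB.symm (fwd (toB A)))
  rw [toB_preimage, fwd_equi, toB_symm_comp]

theorem phi_empty : phi ∅ = ∅ := by
  have h1 : toB (∅ : Set (Fin 6)) = fun _ => false := by
    ext x; simp [toB]
  have h2 : fwd (fun _ => false) = fun _ => false := by decide
  show toB.symm (fwd (toB ∅)) = ∅
  rw [h1, h2]
  ext x
  simp [toB]

/-- the power semigroups are isomorphic -/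
theorem iso : ∃ f : {A : Set (Sg (Tab al)) // A.Nonempty} ≃ {B : Set (Sg (Tab be)) // B.Nonempty},
        ∀ A B : {A : Set (Sg (Tab al)) // A.Nonempty},
          (f ⟨A.1 * B.1, A.2.mul B.2⟩).1 = (f A).1 * (f B).1 :=
  power_iso_Tab al be al_inv be_inv phi phi_empty phi_equi

section nonIso

variable {L R N : Type}

/-- the zero of `Sg T` -/
def sz (T : L → R → N) : Sg T := (E.z : E L R N)
/-- the left factors in `Sg T` -/
def sl (T : L → R → N) (a : L) : Sg T := (E.l a : E L R N)
/-- the right factors in `Sg T` -/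
def sr (T : L → R → N) (b : R) : Sg T := (E.r b : E L R N)
/-- the nonzero products in `Sg T` -/
def sn (T : L → R → N) (c : N) : Sg T := (E.n c : E L R N)

theorem sl_mul_sr (T : L → R → N) (a : L) (b : R) : sl T a * sr T b = sn T (T a b) := rfl

theorem sl_inj (T : L → R → N) {a a' : L} (h : sl T a = sl T a') : a = a' := E.l.inj h
theorem sr_inj (T : L → R → N) {a a' : R} (h : sr T a = sr T a') : a = a' := E.r.inj h
theorem sn_inj (T : L → R → N) {a a' : N} (h : sn T a = sn T a') : a = a' := E.n.inj h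
theorem sn_ne (T : L → R → N) (a : N) : sn T a ≠ sz T := fun h => by cases h

theorem mul_ne_z (T : L → R → N) (x y : Sg T) (h : x * y ≠ sz T) :
    ∃ a b, x = sl T a ∧ y = sr T b := by
  rcases x with _ | x | x | x
  · exact absurd rfl h
  · rcases y with _ | y | y | y
    · exact absurd rfl h
    · exact absurd rfl h
    · exact ⟨x, y, rfl, rfl⟩
    · exact absurd rfl h
  · exact absurd rfl h
  · exact absurd rfl h

theorem mul_sz (T : L → R → N) (x : Sg T) : x * sz T = sz T := by
  rcases x with _ | x | x | x <;> rfl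

theorem sz_mul (T : L → R → N) (x : Sg T) : sz T * x = sz T := rfl

end nonIso

theorem be_count : ∀ p q : Bool × Fin 6, p ≠ q →
    (Finset.univ.filter (fun u : Fin 3 × Bool => ∃ v, Tab be p u = Tab be q v)).card ≤ 2 := by
  decide

/-- the semigroups are not isomorphic -/
theorem not_iso : ¬ Nonempty (Sg (Tab al) ≃* Sg (Tab be)) := by
  rintro ⟨e⟩
  -- the zero is preserved
  have hz : e (sz (Tab al)) = sz (Tab be) := by
    obtain ⟨w, hw⟩ := e.surjective (sz (Tab be))
    have h2 := congrArg e (mul_sz (Tab al) w)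
    rw [map_mul, hw, sz_mul] at h2
    exact h2.symm
  have hinj := e.injective
  have hlr : ∀ a b, ∃ a' b', e (sl (Tab al) a) = sl (Tab be) a' ∧
      e (sr (Tab al) b) = sr (Tab be) b' ∧
      e (sn (Tab al) (Tab al a b)) = sn (Tab be) (Tab be a' b') := by
    intro a b
    have h1 : e (sn (Tab al) (Tab al a b)) ≠ sz (Tab be) := by
      intro h
      rw [← hz] at h
      exact sn_ne _ _ (hinj h)
    have h2 : e (sn (Tab al) (Tab al a b)) = e (sl (Tab al) a) * e (sr (Tab al) b) := by
      rw [← map_mul, sl_mul_sr]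
    rw [h2] at h1
    obtain ⟨a', b', ha, hb⟩ := mul_ne_z _ _ _ h1
    refine ⟨a', b', ha, hb, ?_⟩
    rw [h2, ha, hb, sl_mul_sr]
  -- the two rows of a fixed point
  choose f g hf hg hfg using hlr
  have hf' : ∀ a b b', f a b = f a b' := fun a b b' =>
    sl_inj (Tab be) ((hf a b).symm.trans (hf a b'))
  have key : ∀ k : Fin 3, Tab be (f (false, 4) (0, false)) (g (false, 4) (k, false)) =
      Tab be (f (true, 4) (0, false)) (g (true, 4) (k, true)) := by
    intro k
    have h1 : Tab al (false, 4) (k, false) = Tab al (true, 4) (k, true) := by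
      revert k; decide
    have h2 := hfg (false, 4) (k, false)
    have h3 := hfg (true, 4) (k, true)
    rw [h1, h3] at h2
    have h4 := sn_inj (Tab be) h2
    rw [hf' (false, 4) (0, false) (k, false), hf' (true, 4) (0, false) (k, true)]
    exact h4.symm
  have hpq : f (false, 4) (0, false) ≠ f (true, 4) (0, false) := by
    intro h
    have h1 := hf (false, 4) (0, false)
    have h2 := hf (true, 4) (0, false)
    rw [h] at h1
    have h3 := sl_inj (Tab al) (hinj (h1.trans h2.symm))
    exact absurd h3 (by decide)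
  have hu : ∀ k k' : Fin 3, k ≠ k' → g (false, 4) (k, false) ≠ g (false, 4) (k', false) := by
    intro k k' hk h
    have h1 := hg (false, 4) (k, false)
    have h2 := hg (false, 4) (k', false)
    rw [h] at h1
    have h3 := sr_inj (Tab al) (hinj (h1.trans h2.symm))
    exact hk (congrArg Prod.fst h3)
  have hc := be_count _ _ hpq
  have hs : ({g (false, 4) (0, false), g (false, 4) (1, false), g (false, 4) (2, false)} :
      Finset (Fin 3 × Bool)) ⊆ Finset.univ.filter (fun u : Fin 3 × Bool =>
        ∃ v, Tab be (f (false, 4) (0, false)) u = Tab be (f (true, 4) (0, false)) v) := by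
    intro u hu'
    simp only [Finset.mem_insert, Finset.mem_singleton] at hu'
    rw [Finset.mem_filter]
    refine ⟨Finset.mem_univ _, ?_⟩
    rcases hu' with rfl | rfl | rfl
    · exact ⟨_, key 0⟩
    · exact ⟨_, key 1⟩
    · exact ⟨_, key 2⟩
  have h3 : ({g (false, 4) (0, false), g (false, 4) (1, false), g (false, 4) (2, false)} :
      Finset (Fin 3 × Bool)).card = 3 :=
    Finset.card_eq_three.2 ⟨_, _, _, hu 0 1 (by decide), hu 0 2 (by decide),
      hu 1 2 (by decide), rfl⟩
  have h4 := Finset.card_le_card hs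
  omega

end Pool.Agent.MPe763ea
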