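import Pool.Agent.Lib.MP_e763ea_al.Example

set_option autoImplicit false

/-!
# The example with additional annihilating elements: every order at least 73
-/

namespace Pool.Agent.MPe763ea

open scoped Pointwise

section general

variable {L R N M : Type}

/-- the table with a larger set of values -/
def inTab (M : Type) (T : L → R → N) : L → R → N ⊕ M := fun a b => Sum.inl (T a b)

theorem That_inTab (T : L → R → N) (I : Set L) (J : Set R) :
    That (inTab M T) I J = Sum.inl '' That T I J := by
  ext c
  constructor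
  · rintro ⟨a, ha, b, hb, h⟩
    exact ⟨T a b, ⟨a, ha, b, hb, rfl⟩, h⟩
  · rintro ⟨_, ⟨a, ha, b, hb, rfl⟩, h⟩
    exact ⟨a, ha, b, hb, h⟩

theorem That_inTab_eq (T : L → R → N) (I I' : Set L) (J J' : Set R) :
    That (inTab M T) I J = That (inTab M T) I' J' ↔ That T I J = That T I' J' := by
  rw [That_inTab, That_inTab, Set.image_eq_image Sum.inl_injective]

end general

theorem iso_ext (M : Type) [Finite M] :
    ∃ f : {A : Set (Sg (inTab M (Tab al))) // A.Nonempty} ≃
        {B : Set (Sg (inTab M (Tab be))) // B.Nonempty},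
      ∀ A B : {A : Set (Sg (inTab M (Tab al))) // A.Nonempty},
        (f ⟨A.1 * B.1, A.2.mul B.2⟩).1 = (f A).1 * (f B).1 := by
  refine power_iso _ _ (rowPerm phi) (rowPerm_empty phi phi_empty) ?_
  intro I J I' J'
  rw [That_inTab_eq, That_inTab_eq, That_eq_iff al al_inv, That_eq_iff be be_inv]
  refine forall_congr' fun k => ?_
  rw [rX_rowPerm, rY_rowPerm, rX_rowPerm, rY_rowPerm, ← phi_equi, ← phi_equi,
    ← Ecal_iff phi phi_empty]

/-- the semigroups are not isomorphic -/
theorem not_iso_ext (M : Type) :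
    IsEmpty (Sg (inTab M (Tab al)) ≃* Sg (inTab M (Tab be))) := by
  refine ⟨fun e => ?_⟩
  have hz : e (sz (inTab M (Tab al))) = sz (inTab M (Tab be)) := by
    obtain ⟨w, hw⟩ := e.surjective (sz (inTab M (Tab be)))
    have h2 := congrArg e (mul_sz (inTab M (Tab al)) w)
    rw [map_mul, hw, sz_mul] at h2
    exact h2.symm
  have hinj := e.injective
  have hlr : ∀ a b, ∃ a' b', e (sl (inTab M (Tab al)) a) = sl (inTab M (Tab be)) a' ∧
      e (sr (inTab M (Tab al)) b) = sr (inTab M (Tab be)) b' ∧
      e (sn (inTab M (Tab al)) (inTab M (Tab al) a b)) =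
        sn (inTab M (Tab be)) (inTab M (Tab be) a' b') := by
    intro a b
    have h1 : e (sn (inTab M (Tab al)) (inTab M (Tab al) a b)) ≠ sz (inTab M (Tab be)) := by
      intro h
      rw [← hz] at h
      exact sn_ne _ _ (hinj h)
    have h2 : e (sn (inTab M (Tab al)) (inTab M (Tab al) a b)) =
        e (sl (inTab M (Tab al)) a) * e (sr (inTab M (Tab al)) b) := by
      rw [← map_mul, sl_mul_sr]
    rw [h2] at h1
    obtain ⟨a', b', ha, hb⟩ := mul_ne_z _ _ _ h1
    refine ⟨a', b', ha, hb, ?_⟩
    rw [h2, ha, hb, sl_mul_sr]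
  choose f g hf hg hfg using hlr
  have hf' : ∀ a b b', f a b = f a b' := fun a b b' =>
    sl_inj (inTab M (Tab be)) ((hf a b).symm.trans (hf a b'))
  have key : ∀ k : Fin 3, Tab be (f (false, 4) (0, false)) (g (false, 4) (k, false)) =
      Tab be (f (true, 4) (0, false)) (g (true, 4) (k, true)) := by
    intro k
    have h1 : inTab M (Tab al) (false, 4) (k, false) = inTab M (Tab al) (true, 4) (k, true) := by
      refine congrArg Sum.inl ?_
      revert k; decide
    have h2 := hfg (false, 4) (k, false)
    have h3 := hfg (true, 4) (k, true)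
    rw [h1, h3] at h2
    have h4 := sn_inj (inTab M (Tab be)) h2
    rw [hf' (false, 4) (0, false) (k, false), hf' (true, 4) (0, false) (k, true)]
    exact Sum.inl_injective h4.symm
  have hpq : f (false, 4) (0, false) ≠ f (true, 4) (0, false) := by
    intro h
    have h1 := hf (false, 4) (0, false)
    have h2 := hf (true, 4) (0, false)
    rw [h] at h1
    have h3 := sl_inj (inTab M (Tab al)) (hinj (h1.trans h2.symm))
    exact absurd h3 (by decide)
  have hu : ∀ k k' : Fin 3, k ≠ k' → g (false, 4) (k, false) ≠ g (false, 4) (k', false) := by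
    intro k k' hk h
    have h1 := hg (false, 4) (k, false)
    have h2 := hg (false, 4) (k', false)
    rw [h] at h1
    have h3 := sr_inj (inTab M (Tab al)) (hinj (h1.trans h2.symm))
    exact hk (congrArg Prod.fst h3)
  have hc := be_count _ _ hpq
  have hs : ({g (false, 4) (0, false), g (false, 4) (1, false), g (false, 4) (2, false)} :
      Finset (Fin 3 × Bool)) ⊆ Finset.univ.filter (fun u : Fin 3 × Bool =>
        ∃ v, Tab be (f (false, 4) (0, false)) u = Tab be (f (true, 4) (0, false)) v) := by
    intro u hu'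
    simp only [Finset.mem_insert, Finset.mem_singleton] at hu'
    rw [Finset.mem_filter]
    refine ⟨Finset.mem_univ _, ?_⟩
    rcases hu' with rfl | rfl | rfl
    · exact ⟨_, key 0⟩
    · exact ⟨_, key 1⟩
    · exact ⟨_, key 2⟩
  have h3 : ({g (false, 4) (0, false), g (false, 4) (1, false), g (false, 4) (2, false)} :
      Finset (Fin 3 × Bool)).card = 3 :=
    Finset.card_eq_three.2 ⟨_, _, _, hu 0 1 (by decide), hu 0 2 (by decide),
      hu 1 2 (by decide), rfl⟩
  have h4 := Finset.card_le_card hs
  omega

/-- the elements of the semigroup -/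
def eqE (L R N : Type) : E L R N ≃ Unit ⊕ L ⊕ R ⊕ N where
  toFun x := match x with
    | .z => Sum.inl ()
    | .l a => Sum.inr (Sum.inl a)
    | .r b => Sum.inr (Sum.inr (Sum.inl b))
    | .n c => Sum.inr (Sum.inr (Sum.inr c))
  invFun x := match x with
    | Sum.inl _ => .z
    | Sum.inr (Sum.inl a) => .l a
    | Sum.inr (Sum.inr (Sum.inl b)) => .r b
    | Sum.inr (Sum.inr (Sum.inr c)) => .n c
  left_inv := by rintro (_ | _ | _ | _) <;> rfl
  right_inv := by rintro (_ | _ | _ | _) <;> rfl

theorem card_ext (j : ℕ) (α : Fin 3 → Fin 6 → Fin 6) :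
    Nat.card (Sg (inTab (Fin j) (Tab α))) = 73 + j := by
  show Nat.card (E (Bool × Fin 6) (Fin 3 × Bool) ((Fin 3 × Fin 3 × Fin 6) ⊕ Fin j)) = 73 + j
  rw [Nat.card_congr (eqE _ _ _), Nat.card_eq_fintype_card]
  simp only [Fintype.card_sum, Fintype.card_prod, Fintype.card_fin, Fintype.card_bool,
    Fintype.card_unit]
  omega

theorem mul_mul_ext {L R N : Type} (T : L → R → N) (x y w : Sg T) : x * y * w = sz T := by
  rcases x with _ | x | x | x <;> rcases y with _ | y | y | y <;> rcases w with _ | w | w | w <;>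
    rfl

end Pool.Agent.MPe763ea
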