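import Mathlib

set_option autoImplicit false

/-!
# Two non-isomorphic finite semigroups with isomorphic power semigroups

For types `L R N` and a table `T : L → R → N` let `Sg T` be the semigroup on
`{z} ∪ L ∪ R ∪ N` in which `a * b = T a b` for `a ∈ L`, `b ∈ R` and all other products are `z`.

This file contains the construction of the bijection between power sets and the
pattern criterion.
-/

namespace Pool.Agent.MPe763ea

open scoped Pointwise

/-- underlying set of the semigroup -/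
inductive E (L R N : Type) : Type
  | z : E L R N
  | l (a : L) : E L R N
  | r (b : R) : E L R N
  | n (c : N) : E L R N

/-- the semigroup attached to a table -/
def Sg {L R N : Type} (_ : L → R → N) : Type := E L R N

/-- the multiplication attached to a table -/
def mulE {L R N : Type} (T : L → R → N) : E L R N → E L R N → E L R N
  | .l a, .r b => .n (T a b)
  | _, _ => .z

instance instSg {L R N : Type} (T : L → R → N) : Semigroup (Sg T) where
  mul := mulE T
  mul_assoc := by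
    rintro (_ | _ | _ | _) (_ | _ | _ | _) (_ | _ | _ | _) <;> rfl

theorem mul_def {L R N : Type} (T : L → R → N) (x y : Sg T) : x * y = mulE T x y := rfl

instance finE {L R N : Type} [Finite L] [Finite R] [Finite N] : Finite (E L R N) := by
  let f : Option (L ⊕ R ⊕ N) → E L R N := fun o => match o with
    | none => .z
    | some (.inl a) => .l a
    | some (.inr (.inl b)) => .r b
    | some (.inr (.inr c)) => .n c
  refine Finite.of_surjective f ?_
  rintro (_ | a | b | c)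
  · exact ⟨none, rfl⟩
  · exact ⟨some (.inl a), rfl⟩
  · exact ⟨some (.inr (.inl b)), rfl⟩
  · exact ⟨some (.inr (.inr c)), rfl⟩

instance finSg {L R N : Type} [Finite L] [Finite R] [Finite N] (T : L → R → N) :
    Finite (Sg T) := finE (L := L) (R := R) (N := N)

variable {L R N : Type}

/-- `l`-part of a subset -/
def pl (A : Set (E L R N)) : Set L := {a | E.l a ∈ A}
/-- `r`-part of a subset -/
def pr (A : Set (E L R N)) : Set R := {a | E.r a ∈ A}
/-- `n`-part of a subset -/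
def pn (A : Set (E L R N)) : Set N := {a | E.n a ∈ A}
/-- `z`-part of a subset -/
def pz (A : Set (E L R N)) : Prop := E.z ∈ A

/-- the map on subsets of the semigroup -/
def F (φ : Set L → Set L) (lam : Set N → Set N) (A : Set (E L R N)) :
    Set (E L R N) :=
  {x | match x with
    | .z => pz A
    | .l a => a ∈ φ (pl A)
    | .r b => b ∈ pr A
    | .n c => ((pl A = ∅ ∧ pr A = ∅) ∧ c ∈ lam (pn A)) ∨ (¬ (pl A = ∅ ∧ pr A = ∅) ∧ c ∈ pn A)}

theorem F_z (φ : Set L → Set L) (lam : Set N → Set N) (A : Set (E L R N)) :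
    pz (F φ lam A) = pz A := rfl

theorem F_l (φ : Set L → Set L) (lam : Set N → Set N) (A : Set (E L R N)) :
    pl (F φ lam A) = φ (pl A) := rfl

theorem F_r (φ : Set L → Set L) (lam : Set N → Set N) (A : Set (E L R N)) :
    pr (F φ lam A) = pr A := rfl

theorem F_n1 (φ : Set L → Set L) (lam : Set N → Set N) (A : Set (E L R N))
    (h : pl A = ∅ ∧ pr A = ∅) : pn (F φ lam A) = lam (pn A) := by
  ext c
  constructor
  · rintro (⟨_, h2⟩ | ⟨h1, _⟩)
    · exact h2
    · exact absurd h h1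
  · intro hc
    exact Or.inl ⟨h, hc⟩

theorem F_n2 (φ : Set L → Set L) (lam : Set N → Set N) (A : Set (E L R N))
    (h : ¬ (pl A = ∅ ∧ pr A = ∅)) : pn (F φ lam A) = pn A := by
  ext c
  constructor
  · rintro (⟨h1, _⟩ | ⟨_, h2⟩)
    · exact absurd h1 h
    · exact h2
  · intro hc
    exact Or.inr ⟨h, hc⟩

theorem ext4 {A B : Set (E L R N)} (hz : pz A ↔ pz B)
    (hl : pl A = pl B) (hr : pr A = pr B) (hn : pn A = pn B) : A = B := by
  ext x
  rcases x with _ | a | b | c
  · exact hz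
  · exact Set.ext_iff.1 hl a
  · exact Set.ext_iff.1 hr b
  · exact Set.ext_iff.1 hn c

theorem F_inv (φ : Equiv.Perm (Set L)) (h0 : φ ∅ = ∅) (lam : Equiv.Perm (Set N))
    (A : Set (E L R N)) : F φ.symm lam.symm (F φ lam A) = A := by
  have h : φ (pl A) = ∅ ↔ pl A = (∅ : Set L) := by
    constructor
    · intro h
      rw [← h0] at h
      exact φ.injective h
    · intro h
      rw [h, h0]
  refine ext4 ?_ ?_ ?_ ?_
  · rw [F_z, F_z]
  · rw [F_l, F_l, Equiv.symm_apply_apply]
  · rw [F_r, F_r]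
  · by_cases hh : pl A = ∅ ∧ pr A = ∅
    · rw [F_n1, F_n1, Equiv.symm_apply_apply]
      · exact hh
      · rw [F_l, F_r, h]
        exact hh
    · rw [F_n2, F_n2]
      · exact hh
      · rw [F_l, F_r, h]
        exact hh

/-- `F` as a permutation of the power set -/
def FE (φ : Equiv.Perm (Set L)) (h0 : φ ∅ = ∅) (lam : Equiv.Perm (Set N)) :
    Equiv.Perm (Set (E L R N)) where
  toFun := F φ lam
  invFun := F φ.symm lam.symm
  left_inv := F_inv φ h0 lam
  right_inv := by
    intro A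
    have := F_inv (R := R) φ.symm (by rw [Equiv.symm_apply_eq, h0]) lam.symm A
    simpa using this

theorem pl_empty : pl (∅ : Set (E L R N)) = ∅ := rfl
theorem pr_empty : pr (∅ : Set (E L R N)) = ∅ := rfl
theorem pn_empty : pn (∅ : Set (E L R N)) = ∅ := rfl

theorem F_empty (φ : Equiv.Perm (Set L)) (h0 : φ ∅ = ∅) (lam : Equiv.Perm (Set N))
    (hl : lam ∅ = ∅) : F φ lam (∅ : Set (E L R N)) = ∅ := by
  refine ext4 Iff.rfl ?_ ?_ ?_
  · rw [F_l, pl_empty, h0]
  · rw [F_r]
  · rw [F_n1 _ _ _ ⟨pl_empty, pr_empty⟩, pn_empty, hl]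

theorem F_nonempty_iff (φ : Equiv.Perm (Set L)) (h0 : φ ∅ = ∅) (lam : Equiv.Perm (Set N))
    (hl : lam ∅ = ∅) (A : Set (E L R N)) : A.Nonempty ↔ (F φ lam A).Nonempty := by
  rw [Set.nonempty_iff_ne_empty, Set.nonempty_iff_ne_empty, not_iff_not]
  constructor
  · rintro rfl
    exact F_empty φ h0 lam hl
  · intro hA
    have := F_inv φ h0 lam A
    rw [hA, ← F_empty (R := R) φ h0 lam hl, F_inv φ h0 lam] at this
    exact this.symm

/-- products of subsets, label part -/
def That (T : L → R → N) (I : Set L) (J : Set R) : Set N :=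
  {c | ∃ a ∈ I, ∃ b ∈ J, T a b = c}

theorem mul_l (T : L → R → N) (A B : Set (Sg T)) :
    pl (A * B : Set (Sg T)) = ∅ := by
  rw [Set.eq_empty_iff_forall_notMem]
  rintro a ⟨x, hx, y, hy, h⟩
  rcases x with _ | x | x | x <;> rcases y with _ | y | y | y <;> cases h

theorem mul_r (T : L → R → N) (A B : Set (Sg T)) :
    pr (A * B : Set (Sg T)) = ∅ := by
  rw [Set.eq_empty_iff_forall_notMem]
  rintro a ⟨x, hx, y, hy, h⟩
  rcases x with _ | x | x | x <;> rcases y with _ | y | y | y <;> cases h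

theorem mul_n (T : L → R → N) (A B : Set (Sg T)) :
    pn (A * B : Set (Sg T)) = That T (pl A) (pr B) := by
  ext c
  constructor
  · rintro ⟨x, hx, y, hy, h⟩
    rcases x with _ | x | x | x <;> rcases y with _ | y | y | y <;> cases h
    exact ⟨x, hx, y, hy, rfl⟩
  · rintro ⟨a, ha, b, hb, h⟩
    exact ⟨E.l a, ha, E.r b, hb, by rw [← h]; rfl⟩

/-- the set has an element outside `L` -/
def nl (A : Set (E L R N)) : Prop := pz A ∨ (pr A).Nonempty ∨ (pn A).Nonempty
/-- the set has an element outside `R` -/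
def nr (A : Set (E L R N)) : Prop := pz A ∨ (pl A).Nonempty ∨ (pn A).Nonempty

theorem nl_iff (A : Set (E L R N)) : nl A ↔ ∃ x ∈ A, ∀ a, x ≠ E.l a := by
  constructor
  · rintro (h | ⟨b, h⟩ | ⟨b, h⟩)
    · exact ⟨_, h, fun a h => by cases h⟩
    · exact ⟨_, h, fun a h => by cases h⟩
    · exact ⟨_, h, fun a h => by cases h⟩
  · rintro ⟨x, hx, h⟩
    rcases x with _ | x | x | x
    · exact Or.inl hx
    · exact absurd rfl (h x)
    · exact Or.inr (Or.inl ⟨x, hx⟩)
    · exact Or.inr (Or.inr ⟨x, hx⟩)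

theorem nr_iff (A : Set (E L R N)) : nr A ↔ ∃ x ∈ A, ∀ a, x ≠ E.r a := by
  constructor
  · rintro (h | ⟨b, h⟩ | ⟨b, h⟩)
    · exact ⟨_, h, fun a h => by cases h⟩
    · exact ⟨_, h, fun a h => by cases h⟩
    · exact ⟨_, h, fun a h => by cases h⟩
  · rintro ⟨x, hx, h⟩
    rcases x with _ | x | x | x
    · exact Or.inl hx
    · exact Or.inr (Or.inl ⟨x, hx⟩)
    · exact absurd rfl (h x)
    · exact Or.inr (Or.inr ⟨x, hx⟩)

theorem mul_z (T : L → R → N) (A B : Set (Sg T)) :
    pz (A * B : Set (Sg T)) ↔ (nl (A : Set (E L R N)) ∧ B.Nonempty) ∨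
      (A.Nonempty ∧ nr (B : Set (E L R N))) := by
  rw [nl_iff, nr_iff]
  constructor
  · rintro ⟨x, hx, y, hy, h⟩
    rcases x with _ | x | x | x
    · exact Or.inl ⟨⟨_, hx, fun a h => by cases h⟩, ⟨y, hy⟩⟩
    · rcases y with _ | y | y | y
      · exact Or.inr ⟨⟨_, hx⟩, ⟨_, hy, fun a h => by cases h⟩⟩
      · exact Or.inr ⟨⟨_, hx⟩, ⟨_, hy, fun a h => by cases h⟩⟩
      · cases h
      · exact Or.inr ⟨⟨_, hx⟩, ⟨_, hy, fun a h => by cases h⟩⟩
    · exact Or.inl ⟨⟨_, hx, fun a h => by cases h⟩, ⟨y, hy⟩⟩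
    · exact Or.inl ⟨⟨_, hx, fun a h => by cases h⟩, ⟨y, hy⟩⟩
  · rintro (⟨⟨x, hx, h⟩, ⟨y, hy⟩⟩ | ⟨⟨x, hx⟩, ⟨y, hy, h⟩⟩)
    · refine ⟨x, hx, y, hy, ?_⟩
      rcases x with _ | x | x | x
      · rfl
      · exact absurd rfl (h x)
      · rfl
      · rfl
    · refine ⟨x, hx, y, hy, ?_⟩
      rcases y with _ | y | y | y
      · rcases x with _ | x | x | x <;> rfl
      · rcases x with _ | x | x | x <;> rfl
      · exact absurd rfl (h y)
      · rcases x with _ | x | x | x <;> rfl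

theorem perm_empty_iff {X : Type} (e : Equiv.Perm (Set X)) (h : e ∅ = ∅) (A : Set X) :
    e A = ∅ ↔ A = ∅ := by
  constructor
  · intro h'
    rw [← h] at h'
    exact e.injective h'
  · intro h'
    rw [h', h]

theorem nonempty_pn_F (φ : Equiv.Perm (Set L)) (lam : Equiv.Perm (Set N))
    (hl : lam ∅ = ∅) (A : Set (E L R N)) : (pn (F φ lam A)).Nonempty ↔ (pn A).Nonempty := by
  by_cases hh : pl A = ∅ ∧ pr A = ∅
  · rw [F_n1 _ _ _ hh, Set.nonempty_iff_ne_empty, Set.nonempty_iff_ne_empty, not_iff_not,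
      perm_empty_iff lam hl]
  · rw [F_n2 _ _ _ hh]

theorem nl_F (φ : Equiv.Perm (Set L)) (lam : Equiv.Perm (Set N))
    (hl : lam ∅ = ∅) (A : Set (E L R N)) : nl (F φ lam A) ↔ nl A := by
  unfold nl
  rw [F_z, F_r, nonempty_pn_F φ lam hl]

theorem nr_F (φ : Equiv.Perm (Set L)) (h0 : φ ∅ = ∅) (lam : Equiv.Perm (Set N))
    (hl : lam ∅ = ∅) (A : Set (E L R N)) : nr (F φ lam A) ↔ nr A := by
  unfold nr
  rw [F_z, F_l, nonempty_pn_F φ lam hl, Set.nonempty_iff_ne_empty, Ne,
    perm_empty_iff φ h0, ← Ne, ← Set.nonempty_iff_ne_empty]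

/-- `F` as a map between the power sets of two semigroups -/
def G (T T' : L → R → N) (φ : Set L → Set L) (lam : Set N → Set N) (A : Set (Sg T)) :
    Set (Sg T') := F φ lam A

theorem lam_empty (T T' : L → R → N) (φ : Equiv.Perm (Set L))
    (lam : Equiv.Perm (Set N)) (hT : ∀ I J, lam (That T I J) = That T' (φ I) J) :
    lam ∅ = ∅ := by
  have h := hT ∅ ∅
  have h1 : That T ∅ ∅ = ∅ := by
    rw [Set.eq_empty_iff_forall_notMem]
    rintro c ⟨a, ha, _⟩
    exact ha
  have h2 : That T' (φ ∅) ∅ = ∅ := by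
    rw [Set.eq_empty_iff_forall_notMem]
    rintro c ⟨a, _, b, hb, _⟩
    exact hb
  rw [h1, h2] at h
  exact h

/-- multiplicativity of `F` -/
theorem F_mul (T T' : L → R → N) (φ : Equiv.Perm (Set L)) (h0 : φ ∅ = ∅)
    (lam : Equiv.Perm (Set N)) (hT : ∀ I J, lam (That T I J) = That T' (φ I) J)
    (A B : Set (Sg T)) :
    G T T' φ lam (A * B) = G T T' φ lam A * G T T' φ lam B := by
  have hl : lam ∅ = ∅ := lam_empty T T' φ lam hT
  refine ext4 ?_ ?_ ?_ ?_
  · have h1 : pz (G T T' φ lam (A * B)) = pz (A * B : Set (Sg T)) := rfl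
    rw [h1, mul_z T A B, mul_z T' (G T T' φ lam A) (G T T' φ lam B)]
    have h2 : nl (G T T' φ lam A) ↔ nl A := nl_F φ lam hl A
    have h3 : nr (G T T' φ lam B) ↔ nr B := nr_F φ h0 lam hl B
    have h4 : A.Nonempty ↔ (G T T' φ lam A).Nonempty := F_nonempty_iff φ h0 lam hl A
    have h5 : B.Nonempty ↔ (G T T' φ lam B).Nonempty := F_nonempty_iff φ h0 lam hl B
    rw [h2, h3, ← h4, ← h5]
  · have h1 : pl (G T T' φ lam (A * B)) = φ (pl (A * B : Set (Sg T))) := rfl
    rw [h1, mul_l T A B, mul_l T' (G T T' φ lam A) (G T T' φ lam B)]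
    exact h0
  · have h1 : pr (G T T' φ lam (A * B)) = pr (A * B : Set (Sg T)) := rfl
    rw [h1, mul_r T A B, mul_r T' (G T T' φ lam A) (G T T' φ lam B)]
  · have h1 : pn (G T T' φ lam (A * B)) = lam (pn (A * B : Set (Sg T))) :=
      F_n1 _ _ _ ⟨mul_l T A B, mul_r T A B⟩
    rw [h1, mul_n T A B, mul_n T' (G T T' φ lam A) (G T T' φ lam B), hT]
    rfl

/-- extension of a partial bijection -/
theorem exists_perm {ι β : Type} [Finite β] (u v : ι → β) (h : ∀ i j, u i = u j ↔ v i = v j) :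
    ∃ e : Equiv.Perm β, ∀ i, e (u i) = v i := by
  classical
  cases nonempty_fintype β
  have hu : ∀ x : {x // x ∈ Set.range u}, ∃ i, u i = x.1 := fun x => x.2
  choose g hg using hu
  let f : {x // x ∈ Set.range u} → {x // x ∈ Set.range v} := fun x => ⟨v (g x), ⟨g x, rfl⟩⟩
  have hf : Function.Bijective f := by
    constructor
    · intro x y hxy
      have h1 : v (g x) = v (g y) := congrArg Subtype.val hxy
      have h2 := (h _ _).2 h1
      rw [hg, hg] at h2
      exact Subtype.ext h2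
    · rintro ⟨_, ⟨i, rfl⟩⟩
      refine ⟨⟨u i, ⟨i, rfl⟩⟩, Subtype.ext ?_⟩
      exact (h _ _).1 (hg ⟨u i, ⟨i, rfl⟩⟩)
  let e0 := Equiv.ofBijective f hf
  refine ⟨e0.extendSubtype, fun i => ?_⟩
  rw [Equiv.extendSubtype_apply_of_mem e0 (u i) ⟨i, rfl⟩]
  exact (h _ _).1 (hg ⟨u i, ⟨i, rfl⟩⟩)

/-- criterion for isomorphism of power semigroups -/
theorem power_iso [Finite N] (T T' : L → R → N) (φ : Equiv.Perm (Set L)) (h0 : φ ∅ = ∅)
    (h : ∀ I J I' J', That T I J = That T I' J' ↔ That T' (φ I) J = That T' (φ I') J') :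
    ∃ f : {A : Set (Sg T) // A.Nonempty} ≃ {B : Set (Sg T') // B.Nonempty},
        ∀ A B : {A : Set (Sg T) // A.Nonempty},
          (f ⟨A.1 * B.1, A.2.mul B.2⟩).1 = (f A).1 * (f B).1 := by
  obtain ⟨lam, hlam⟩ := exists_perm (fun p : Set L × Set R => That T p.1 p.2)
    (fun p => That T' (φ p.1) p.2) (fun p q => h _ _ _ _)
  have hT : ∀ I J, lam (That T I J) = That T' (φ I) J := fun I J => hlam (I, J)
  have hl : lam ∅ = ∅ := lam_empty T T' φ lam hT
  let G' : Set (Sg T) ≃ Set (Sg T') := FE φ h0 lam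
  refine ⟨Equiv.subtypeEquiv G' (fun A => F_nonempty_iff φ h0 lam hl A), ?_⟩
  intro A B
  exact F_mul T T' φ h0 lam hT A.1 B.1

end Pool.Agent.MPe763ea
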