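import Pool.Agent.Lib.MP_e763ea_al.Power

set_option autoImplicit false

/-!
# The tables attached to families of involutions
-/

namespace Pool.Agent.MPe763ea

open scoped Pointwise

variable {X K : Type}

/-- the table attached to a family of involutions `α k` of `X` -/
def Tab (α : K → X → X) : Bool × X → K × Bool → K × Fin 3 × X
  | (false, x), (k, false) => (k, 0, x)
  | (false, x), (k, true) => (k, 1, x)
  | (true, y), (k, false) => (k, 2, y)
  | (true, y), (k, true) => (k, 0, α k y)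

/-- the set `A` if `c` holds, and the empty set otherwise -/
def cut (c : Prop) (A : Set X) : Set X := {x | c ∧ x ∈ A}

theorem cut_pos {c : Prop} (h : c) (A : Set X) : cut c A = A := by
  ext x; simp [cut, h]

theorem cut_neg {c : Prop} (h : ¬ c) (A : Set X) : cut c A = ∅ := by
  ext x; simp [cut, h]

/-- equality of products, for one `k` -/
def Ecal (c d c' d' : Prop) (A B A' B' : Set X) : Prop :=
  cut c A ∪ cut d B = cut c' A' ∪ cut d' B' ∧ cut d A = cut d' A' ∧ cut c B = cut c' B'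

theorem Ecal_map (φ : Equiv.Perm (Set X)) (h0 : φ ∅ = ∅) (c d c' d' : Prop)
    (A B A' B' : Set X) (h : Ecal c d c' d' A B A' B') :
    Ecal c d c' d' (φ A) (φ B) (φ A') (φ B') := by
  have hE := perm_empty_iff φ h0
  unfold Ecal at *
  by_cases hc : c <;> by_cases hd : d <;> by_cases hc' : c' <;> by_cases hd' : d' <;>
    simp only [cut_pos, cut_neg, hc, hd, hc', hd', not_false_eq_true, Set.union_empty,
      Set.empty_union] at h ⊢ <;>
    obtain ⟨h1, h2, h3⟩ := h
  all_goals first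
    | (subst h2; subst h3; simp [h0]; done)
    | (subst h2; subst h3; simp only [Set.empty_union, Set.union_empty] at h1; subst h1;
        simp [h0])
    | (simp_all)

theorem Ecal_iff (φ : Equiv.Perm (Set X)) (h0 : φ ∅ = ∅) (c d c' d' : Prop)
    (A B A' B' : Set X) :
    Ecal c d c' d' A B A' B' ↔ Ecal c d c' d' (φ A) (φ B) (φ A') (φ B') := by
  constructor
  · exact Ecal_map φ h0 c d c' d' A B A' B'
  · intro h
    have := Ecal_map φ.symm (by rw [Equiv.symm_apply_eq, h0]) c d c' d' _ _ _ _ h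
    simpa using this

/-- the `X`-part of a set of rows -/
def rX (I : Set (Bool × X)) : Set X := {x | (false, x) ∈ I}
/-- the `Y`-part of a set of rows -/
def rY (I : Set (Bool × X)) : Set X := {x | (true, x) ∈ I}

/-- equality of products of subsets in terms of `Ecal` -/
theorem That_eq_iff (α : K → X → X) (hα : ∀ k x, α k (α k x) = x)
    (I I' : Set (Bool × X)) (J J' : Set (K × Bool)) :
    That (Tab α) I J = That (Tab α) I' J' ↔ ∀ k, Ecal ((k, false) ∈ J) ((k, true) ∈ J)
      ((k, false) ∈ J') ((k, true) ∈ J') (rX I) (α k ⁻¹' rY I) (rX I') (α k ⁻¹' rY I') := by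
  have m0 : ∀ (I : Set (Bool × X)) (J : Set (K × Bool)) (k : K) (x : X),
      ((k, (0 : Fin 3), x) ∈ That (Tab α) I J) ↔
        x ∈ cut ((k, false) ∈ J) (rX I) ∪ cut ((k, true) ∈ J) (α k ⁻¹' rY I) := by
    intro I J k x
    constructor
    · rintro ⟨⟨s, y⟩, ha, ⟨k', t⟩, hb, h⟩
      cases s <;> cases t <;> simp only [Tab, Prod.mk.injEq] at h
      · obtain ⟨h1, h2, h3⟩ := h
        subst h1; subst h3
        exact Or.inl ⟨hb, ha⟩
      · exact absurd h.2.1 (by decide)
      · exact absurd h.2.1 (by decide)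
      · obtain ⟨h1, h2, h3⟩ := h
        subst h1; subst h3
        refine Or.inr ⟨hb, ?_⟩
        show (true, α k' (α k' y)) ∈ I
        rw [hα]
        exact ha
    · rintro (⟨h1, h2⟩ | ⟨h1, h2⟩)
      · exact ⟨(false, x), h2, (k, false), h1, rfl⟩
      · refine ⟨(true, α k x), h2, (k, true), h1, ?_⟩
        show (k, (0 : Fin 3), α k (α k x)) = (k, 0, x)
        rw [hα]
  have m1 : ∀ (I : Set (Bool × X)) (J : Set (K × Bool)) (k : K) (x : X),
      ((k, (1 : Fin 3), x) ∈ That (Tab α) I J) ↔ x ∈ cut ((k, true) ∈ J) (rX I) := by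
    intro I J k x
    constructor
    · rintro ⟨⟨s, y⟩, ha, ⟨k', t⟩, hb, h⟩
      cases s <;> cases t <;> simp only [Tab, Prod.mk.injEq] at h
      · exact absurd h.2.1 (by decide)
      · obtain ⟨h1, h2, h3⟩ := h
        subst h1; subst h3
        exact ⟨hb, ha⟩
      · exact absurd h.2.1 (by decide)
      · exact absurd h.2.1 (by decide)
    · rintro ⟨h1, h2⟩
      exact ⟨(false, x), h2, (k, true), h1, rfl⟩
  have m2 : ∀ (I : Set (Bool × X)) (J : Set (K × Bool)) (k : K) (x : X),
      ((k, (2 : Fin 3), x) ∈ That (Tab α) I J) ↔ (k, false) ∈ J ∧ x ∈ rY I := by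
    intro I J k x
    constructor
    · rintro ⟨⟨s, y⟩, ha, ⟨k', t⟩, hb, h⟩
      cases s <;> cases t <;> simp only [Tab, Prod.mk.injEq] at h
      · exact absurd h.2.1 (by decide)
      · exact absurd h.2.1 (by decide)
      · obtain ⟨h1, h2, h3⟩ := h
        subst h1; subst h3
        exact ⟨hb, ha⟩
      · exact absurd h.2.1 (by decide)
    · rintro ⟨h1, h2⟩
      exact ⟨(true, x), h2, (k, false), h1, rfl⟩
  constructor
  · intro h k
    refine ⟨?_, ?_, ?_⟩
    · ext x
      rw [← m0 I J k x, ← m0 I' J' k x, h]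
    · ext x
      rw [← m1 I J k x, ← m1 I' J' k x, h]
    · ext x
      have h1 := m2 I J k (α k x)
      have h2 := m2 I' J' k (α k x)
      rw [h] at h1
      exact (h1.symm.trans h2)
  · intro h
    ext ⟨k, t, x⟩
    obtain ⟨h1, h2, h3⟩ := h k
    fin_cases t
    · show (k, (0 : Fin 3), x) ∈ _ ↔ (k, (0 : Fin 3), x) ∈ _
      rw [m0, m0, h1]
    · show (k, (1 : Fin 3), x) ∈ _ ↔ (k, (1 : Fin 3), x) ∈ _
      rw [m1, m1, h2]
    · show (k, (2 : Fin 3), x) ∈ _ ↔ (k, (2 : Fin 3), x) ∈ _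
      rw [m2, m2]
      have h4 := Set.ext_iff.1 h3 (α k x)
      have h5 : ∀ (c : Prop) (I : Set (Bool × X)), α k x ∈ cut c (α k ⁻¹' rY I) ↔ c ∧ x ∈ rY I := by
        intro c I
        show c ∧ (true, α k (α k x)) ∈ I ↔ _
        rw [hα]
        rfl
      rw [h5, h5] at h4
      exact h4

/-- the map on sets of rows induced by `f` -/
def rowMap (f : Set X → Set X) (I : Set (Bool × X)) : Set (Bool × X) :=
  {p | (p.1 = false ∧ p.2 ∈ f (rX I)) ∨ (p.1 = true ∧ p.2 ∈ f (rY I))}

theorem rX_rowMap (f : Set X → Set X) (I : Set (Bool × X)) :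
    rX (rowMap f I) = f (rX I) := by
  ext x; simp [rowMap, rX]

theorem rY_rowMap (f : Set X → Set X) (I : Set (Bool × X)) :
    rY (rowMap f I) = f (rY I) := by
  ext x; simp [rowMap, rY]

theorem row_ext {I I' : Set (Bool × X)} (h1 : rX I = rX I') (h2 : rY I = rY I') : I = I' := by
  ext ⟨s, x⟩
  cases s
  · exact Set.ext_iff.1 h1 x
  · exact Set.ext_iff.1 h2 x

/-- the permutation of sets of rows induced by `φ` -/
def rowPerm (φ : Equiv.Perm (Set X)) : Equiv.Perm (Set (Bool × X)) where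
  toFun := rowMap φ
  invFun := rowMap φ.symm
  left_inv I := by
    refine row_ext ?_ ?_
    · rw [rX_rowMap, rX_rowMap, Equiv.symm_apply_apply]
    · rw [rY_rowMap, rY_rowMap, Equiv.symm_apply_apply]
  right_inv I := by
    refine row_ext ?_ ?_
    · rw [rX_rowMap, rX_rowMap, Equiv.apply_symm_apply]
    · rw [rY_rowMap, rY_rowMap, Equiv.apply_symm_apply]

theorem rX_rowPerm (φ : Equiv.Perm (Set X)) (I : Set (Bool × X)) :
    rX (rowPerm φ I) = φ (rX I) := rX_rowMap φ I

theorem rY_rowPerm (φ : Equiv.Perm (Set X)) (I : Set (Bool × X)) :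
    rY (rowPerm φ I) = φ (rY I) := rY_rowMap φ I

theorem rowPerm_empty (φ : Equiv.Perm (Set X)) (h0 : φ ∅ = ∅) : rowPerm φ ∅ = ∅ := by
  refine row_ext ?_ ?_
  · rw [rX_rowPerm]; exact h0
  · rw [rY_rowPerm]; exact h0

/-- Two families of involutions whose actions on the power set are isomorphic as pointed
actions give isomorphic power semigroups. -/
theorem power_iso_Tab [Finite X] [Finite K] (α β : K → X → X) (hα : ∀ k x, α k (α k x) = x)
    (hβ : ∀ k x, β k (β k x) = x) (φ : Equiv.Perm (Set X)) (h0 : φ ∅ = ∅)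
    (hφ : ∀ k (A : Set X), φ (α k ⁻¹' A) = β k ⁻¹' (φ A)) :
    ∃ f : {A : Set (Sg (Tab α)) // A.Nonempty} ≃ {B : Set (Sg (Tab β)) // B.Nonempty},
        ∀ A B : {A : Set (Sg (Tab α)) // A.Nonempty},
          (f ⟨A.1 * B.1, A.2.mul B.2⟩).1 = (f A).1 * (f B).1 := by
  refine power_iso (Tab α) (Tab β) (rowPerm φ) (rowPerm_empty φ h0) ?_
  intro I J I' J'
  rw [That_eq_iff α hα, That_eq_iff β hβ]
  refine forall_congr' fun k => ?_
  rw [rX_rowPerm, rY_rowPerm, rX_rowPerm, rY_rowPerm, ← hφ, ← hφ, ← Ecal_iff φ h0]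

end Pool.Agent.MPe763ea
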